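import Pool.Agent.W544.KF.Defs2

open CategoryTheory MonoidalCategory Pool.Agent.W544.KF

namespace Pool.Agent.W298.KF

universe w v u

theorem aut : S_aut.{w, v, u} := by
  intro F _ _ D _ _ _ _ _ _ _ Φ M
  have hpm : ∀ n (f : M ⟶ M), Φ.map (pm f n) = pm (Φ.map f) n := by
    intro n
    induction n with
    | zero => intro f; rfl
    | succ n ih =>
      intro f
      show Φ.map (f ⊗ₘ pm f n) = Φ.map f ⊗ₘ pm (Φ.map f) n
      rw [Φ.map_tensor, ih]
  have hwl : ∀ (A : D) {B C : D} (f : B ⟶ C), Φ.map (A ◁ f) = A ◁ Φ.map f := by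
    intro A B C f
    rw [← id_tensorHom, Φ.map_tensor, Φ.map_id, id_tensorHom]
  have hwr : ∀ {B C : D} (f : B ⟶ C) (A : D), Φ.map (f ▷ A) = Φ.map f ▷ A := by
    intro B C f A
    rw [← tensorHom_id, Φ.map_tensor, Φ.map_id, tensorHom_id]
  have hinv : ∀ A B C : D, Φ.map (α_ A B C).inv = (α_ A B C).inv := by
    intro A B C
    have h := Φ.map_comp (α_ A B C).hom (α_ A B C).inv
    rw [Iso.hom_inv_id, Φ.map_id, Φ.map_assoc] at h
    rw [← cancel_epi (α_ A B C).hom, ← h, Iso.hom_inv_id]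
  have hsw : ∀ n, Φ.map (sw M n) = sw M n := by
    intro n
    cases n with
    | zero => exact Φ.map_braid M M
    | succ n =>
      show Φ.map ((α_ M M (pw M n)).inv ≫ (β_ M M).hom ▷ pw M n ≫ (α_ M M (pw M n)).hom) =
        (α_ M M (pw M n)).inv ≫ (β_ M M).hom ▷ pw M n ≫ (α_ M M (pw M n)).hom
      rw [Φ.map_comp, Φ.map_comp, hinv, hwr, Φ.map_braid, Φ.map_assoc]
  have hnat : ∀ (m : ℕ) {A B : D} (f : A ⟶ B), Φ.map ((m : F) • f) = (m : F) • Φ.map f := by
    intro m A B f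
    rw [Nat.cast_smul_eq_nsmul, map_nsmul, Nat.cast_smul_eq_nsmul]
  have hinvn : ∀ (m : ℕ) {A B : D} (f : A ⟶ B), Φ.map (((m : F) + 2)⁻¹ • f) = ((m : F) + 2)⁻¹ • Φ.map f := by
    intro m A B f
    have h0 : ((m : F) + 2) ≠ 0 := by
      have : ((m + 2 : ℕ) : F) ≠ 0 := Nat.cast_ne_zero.2 (by omega)
      push_cast at this
      exact this
    have h1 : Φ.map f = ((m : F) + 2) • Φ.map (((m : F) + 2)⁻¹ • f) := by
      have h2 := hnat (m + 2) (((m : F) + 2)⁻¹ • f)
      push_cast at h2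
      rw [← h2, smul_smul, mul_inv_cancel₀ h0, one_smul]
    rw [h1, smul_smul, inv_mul_cancel₀ h0, one_smul]
  have hsy : ∀ s : F, (s = 1 ∨ s = -1) → ∀ n, Φ.map (sy F s M n) = sy F s M n := by
    intro s hs n
    have hsc : ∀ (m : ℕ) {A B : D} (f : A ⟶ B), Φ.map ((s * ((m : F) + 1)) • f) = (s * ((m : F) + 1)) • Φ.map f := by
      intro m A B f
      have h2 := hnat (m + 1) f
      push_cast at h2
      rcases hs with rfl | rfl
      · rw [one_mul, h2]
      · rw [neg_one_mul, neg_smul, map_neg, h2, neg_smul]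
    induction n with
    | zero => exact Φ.map_id _
    | succ n ih =>
      have ha : ∀ a : pw M (n + 1) ⟶ pw M (n + 1), Φ.map a = a →
          Φ.map (((n : F) + 2)⁻¹ • (a + (s * ((n : F) + 1)) • (a ≫ sw M n ≫ a))) =
          ((n : F) + 2)⁻¹ • (a + (s * ((n : F) + 1)) • (a ≫ sw M n ≫ a)) := by
        intro a h
        rw [hinvn, map_add, hsc, Φ.map_comp, Φ.map_comp, h, hsw]
      refine ha (M ◁ sy F s M n) ?_
      have h4 := hwl M (sy F s M n)
      rw [ih] at h4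
      exact h4
  exact ⟨hpm, hsy 1 (Or.inl rfl), hsy (-1) (Or.inr rfl)⟩

end Pool.Agent.W298.KF
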