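import Pool.Agent.W544.KF.Defs2

open CategoryTheory MonoidalCategory Pool.Agent.W544.KF

namespace Pool.Agent.W298.KF

universe w v u

theorem slide : S_slide.{v, u} := by
  intro D _ _ _ X Y _ A B g h
  let _ : HasRightDual X := { rightDual := Y, exact := inferInstance }
  obtain ⟨h', hη, hε⟩ : ∃ h' : Y ⟶ Y, (η_ X Y ≫ X ◁ h' = η_ X Y ≫ h ▷ Y) ∧
      (h' ▷ X ≫ ε_ X Y = Y ◁ h ≫ ε_ X Y) :=
    ⟨rightAdjointMate h, coevaluation_comp_rightAdjointMate h, rightAdjointMate_comp_evaluation h⟩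
  have hβ : h ▷ Y ≫ (β_ X Y).hom ≫ ε_ X Y = X ◁ h' ≫ (β_ X Y).hom ≫ ε_ X Y := by
    rw [BraidedCategory.braiding_naturality_left_assoc, BraidedCategory.braiding_naturality_right_assoc, hε]
  calc ptr X Y (g ≫ B ◁ h)
      = 𝟙 A ⊗≫ A ◁ (η_ X Y) ⊗≫ g ▷ Y ⊗≫ B ◁ (h ▷ Y ≫ (β_ X Y).hom ≫ ε_ X Y) ⊗≫ 𝟙 B := by
        unfold ptr
        monoidal
    _ = 𝟙 A ⊗≫ A ◁ (η_ X Y) ⊗≫ (g ▷ Y ≫ (B ⊗ X) ◁ h') ⊗≫ B ◁ ((β_ X Y).hom ≫ ε_ X Y) ⊗≫ 𝟙 B := by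
        rw [hβ]
        monoidal
    _ = 𝟙 A ⊗≫ A ◁ (η_ X Y ≫ X ◁ h') ⊗≫ g ▷ Y ⊗≫ B ◁ ((β_ X Y).hom ≫ ε_ X Y) ⊗≫ 𝟙 B := by
        rw [← whisker_exchange]
        monoidal
    _ = ptr X Y (A ◁ h ≫ g) := by
        rw [hη]
        unfold ptr
        monoidal

end Pool.Agent.W298.KF
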